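import Mathlib

/-!
The solvable complex Lie group `G = ℂ ⋉ ℂ²`, a lattice `Γ` in it built from the ring `ℤ[√3]`,
and the compact quotient `Γ \ G`.
-/

set_option autoImplicit false

open scoped Topology
open Set Filter Complex

noncomputable section

namespace Pool.Agent.Lib.MP_666db5_gt.Fat

/-- The model space `ℂ³`, a real vector space of dimension six. -/
abbrev E6 : Type := ℂ × ℂ × ℂ

/-- The group law `(τ, a, b) · (t, x, y) = (τ + t, e^{-τ} x + a, e^τ y + b)`. -/
def gmul (g z : E6) : E6 := (g.1 + z.1, exp (-g.1) * z.2.1 + g.2.1, exp g.1 * z.2.2 + g.2.2)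

/-- The inverse for the group law. -/
def ginv (g : E6) : E6 := (-g.1, -(exp g.1 * g.2.1), -(exp (-g.1) * g.2.2))

theorem exp_mul_exp_neg (t : ℂ) : exp t * exp (-t) = 1 := by
  rw [← exp_add, add_neg_cancel, exp_zero]

/-- The group `ℂ ⋉ ℂ²`. -/
def G : Type := E6

instance : TopologicalSpace G := inferInstanceAs (TopologicalSpace E6)
instance : T2Space G := inferInstanceAs (T2Space E6)
instance : LocallyCompactSpace G := inferInstanceAs (LocallyCompactSpace E6)

instance : Group G where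
  mul := gmul
  one := (0 : E6)
  inv := ginv
  mul_assoc a b c := by
    change gmul (gmul a b) c = gmul a (gmul b c)
    simp only [gmul, neg_add, exp_add, Prod.mk.injEq]
    refine ⟨by ring, by ring, by ring⟩
  one_mul a := by
    have h : ∀ b : E6, gmul (0 : E6) b = b := fun b => by simp [gmul]
    exact h a
  mul_one a := by
    have h : ∀ b : E6, gmul b (0 : E6) = b := fun b => by simp [gmul]
    exact h a
  inv_mul_cancel a := by
    change gmul (ginv a) a = (0 : E6)
    simp [gmul, ginv]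

theorem continuous_gmul : Continuous (fun p : E6 × E6 => gmul p.1 p.2) := by
  unfold gmul
  fun_prop

theorem continuous_ginv : Continuous ginv := by
  unfold ginv
  fun_prop

instance : IsTopologicalGroup G where
  continuous_mul := continuous_gmul
  continuous_inv := continuous_ginv

theorem sqrt3_mul : (√3 : ℝ) * √3 = 3 := Real.mul_self_sqrt (by norm_num)

/-- The real embedding `√3 ↦ √3` of `ℤ[√3]`. -/
def phi : ℤ√3 →+* ℝ := Zsqrtd.lift ⟨√3, by simp⟩

/-- The real embedding `√3 ↦ -√3` of `ℤ[√3]`. -/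
def psi : ℤ√3 →+* ℝ := Zsqrtd.lift ⟨-√3, by simp⟩

theorem phi_apply (a : ℤ√3) : phi a = a.re + a.im * √3 := Zsqrtd.lift_apply_apply _ _

theorem psi_apply (a : ℤ√3) : psi a = a.re - a.im * √3 := by
  have : psi a = a.re + a.im * (-√3) := Zsqrtd.lift_apply_apply _ _
  rw [this]; ring

theorem phi_star (a : ℤ√3) : phi (star a) = psi a := by
  rw [phi_apply, psi_apply]; simp; ring

theorem psi_star (a : ℤ√3) : psi (star a) = phi a := by
  rw [phi_apply, psi_apply]; simp

theorem one_lt_sqrt3 : (1 : ℝ) < √3 := by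
  rw [Real.lt_sqrt (by norm_num)]; norm_num

theorem sqrt3_lt_two : (√3 : ℝ) < 2 := by
  rw [Real.sqrt_lt' (by norm_num)]; norm_num

theorem one_lt_sqrt2 : (1 : ℝ) < √2 := by
  rw [Real.lt_sqrt (by norm_num)]; norm_num

theorem sqrt2_lt_two : (√2 : ℝ) < 2 := by
  rw [Real.sqrt_lt' (by norm_num)]; norm_num

theorem eq_zero_of_small {a : ℤ√3} (h1 : |phi a| < 1) (h2 : |psi a| < 1) : a = 0 := by
  rw [phi_apply, abs_lt] at h1
  rw [psi_apply, abs_lt] at h2
  have h3 := one_lt_sqrt3
  have hre : a.re = 0 := by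
    have ha : ((-1 : ℤ) : ℝ) < (a.re : ℝ) := by push_cast; linarith [h1.1, h2.1]
    have hb : (a.re : ℝ) < ((1 : ℤ) : ℝ) := by push_cast; linarith [h1.2, h2.2]
    have ha' := Int.cast_lt.mp ha
    have hb' := Int.cast_lt.mp hb
    omega
  have him : a.im = 0 := by
    rw [hre] at h1
    simp only [Int.cast_zero, zero_add] at h1
    have ha : ((-1 : ℤ) : ℝ) < (a.im : ℝ) := by
      push_cast
      by_contra hc
      nlinarith [h1.1]
    have hb : (a.im : ℝ) < ((1 : ℤ) : ℝ) := by
      push_cast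
      by_contra hc
      nlinarith [h1.2]
    have ha' := Int.cast_lt.mp ha
    have hb' := Int.cast_lt.mp hb
    omega
  exact Zsqrtd.ext hre him

theorem exists_approx (a b : ℝ) : ∃ α : ℤ√3, |a + phi α| ≤ 3 ∧ |b + psi α| ≤ 3 := by
  have h3 := one_lt_sqrt3
  have h4 := sqrt3_lt_two
  set p : ℝ := (a + b) / 2 with hp
  set r : ℝ := (a - b) / (2 * √3) with hr
  have ha : a = p + r * √3 := by rw [hp, hr]; field_simp; ring
  have hb : b = p - r * √3 := by rw [hp, hr]; field_simp; ring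
  refine ⟨⟨-⌊p⌋, -⌊r⌋⟩, ?_, ?_⟩
  · rw [phi_apply, ha, abs_le]
    push_cast
    have h1 := Int.floor_le p
    have h2 := Int.lt_floor_add_one p
    have h5 := Int.floor_le r
    have h6 := Int.lt_floor_add_one r
    constructor <;> nlinarith
  · rw [psi_apply, hb, abs_le]
    push_cast
    have h1 := Int.floor_le p
    have h2 := Int.lt_floor_add_one p
    have h5 := Int.floor_le r
    have h6 := Int.lt_floor_add_one r
    constructor <;> nlinarith

/-- The numbers `τ` such that `e^{-τ}` and `e^τ` are the two embeddings of one element of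
`ℤ[√3]`. -/
def Lt : AddSubgroup ℂ where
  carrier := {τ | ∃ ε : ℤ√3, (phi ε : ℂ) = exp (-τ) ∧ (psi ε : ℂ) = exp τ}
  zero_mem' := ⟨1, by simp, by simp⟩
  add_mem' := by
    rintro a b ⟨ε, h1, h2⟩ ⟨δ, h3, h4⟩
    refine ⟨ε * δ, ?_, ?_⟩
    · rw [map_mul, ofReal_mul, h1, h3, neg_add, exp_add]
    · rw [map_mul, ofReal_mul, h2, h4, exp_add]
  neg_mem' := by
    rintro a ⟨ε, h1, h2⟩
    exact ⟨star ε, by rw [phi_star, h2, neg_neg], by rw [psi_star, h1]⟩

/-- The lattice of the points `(φ α + i φ β, ψ α + i √2 ψ β)` of `ℂ²`. -/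
def InLam (a b : ℂ) : Prop :=
  ∃ α β : ℤ√3, a = phi α + phi β * I ∧ b = psi α + √2 * psi β * I

/-- The lattice `Γ` of `G`. -/
def Gam : Subgroup G where
  carrier := {g : E6 | g.1 ∈ Lt ∧ InLam g.2.1 g.2.2}
  one_mem' := ⟨Lt.zero_mem, 0, 0, by change (0 : ℂ) = _; simp, by change (0 : ℂ) = _; simp⟩
  mul_mem' := by
    rintro a b ⟨⟨ε, h1, h2⟩, α, β, h3, h4⟩ ⟨hb, α', β', h5, h6⟩
    refine ⟨Lt.add_mem ⟨ε, h1, h2⟩ hb, ε * α' + α, ε * β' + β, ?_, ?_⟩
    · change exp (-a.1) * b.2.1 + a.2.1 = _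
      rw [← h1, h3, h5]
      simp only [map_add, map_mul]
      push_cast
      ring
    · change exp a.1 * b.2.2 + a.2.2 = _
      rw [← h2, h4, h6]
      simp only [map_add, map_mul]
      push_cast
      ring
  inv_mem' := by
    rintro a ⟨⟨ε, h1, h2⟩, α, β, h3, h4⟩
    refine ⟨Lt.neg_mem ⟨ε, h1, h2⟩, -(star ε * α), -(star ε * β), ?_, ?_⟩
    · change -(exp a.1 * a.2.1) = _
      rw [← h2, h3]
      simp only [map_neg, map_mul, phi_star]
      push_cast
      ring
    · change -(exp (-a.1) * a.2.2) = _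
      rw [← h1, h4]
      simp only [map_neg, map_mul, psi_star]
      push_cast
      ring

theorem mem_Gam (g : E6) : (g : G) ∈ Gam ↔ g.1 ∈ Lt ∧ InLam g.2.1 g.2.2 := Iff.rfl

theorem eq_zero_of_mem_Gam {g : E6} (hg : (g : G) ∈ Gam) (h0 : ‖g.1‖ < 1)
    (h1 : ‖exp (-g.1) - 1‖ < 1) (h2 : ‖exp g.1 - 1‖ < 1) (h3 : ‖g.2.1‖ < 1) (h4 : ‖g.2.2‖ < 1) :
    g = 0 := by
  obtain ⟨⟨ε, e1, e2⟩, α, β, e3, e4⟩ := (mem_Gam g).mp hg
  have hε : ε - 1 = 0 := by
    apply eq_zero_of_small
    · rw [← e1] at h1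
      rw [map_sub, map_one, ← Real.norm_eq_abs, ← Complex.norm_real]
      push_cast
      exact h1
    · rw [← e2] at h2
      rw [map_sub, map_one, ← Real.norm_eq_abs, ← Complex.norm_real]
      push_cast
      exact h2
  have hε1 : ε = 1 := sub_eq_zero.mp hε
  have ht : g.1 = 0 := by
    rw [hε1, map_one, ofReal_one] at e2
    obtain ⟨n, hn⟩ := Complex.exp_eq_one_iff.mp e2.symm
    have hn0 : n = 0 := by
      by_contra hne
      have h5 : (1 : ℝ) ≤ |(n : ℝ)| := by exact_mod_cast Int.one_le_abs hne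
      rw [hn] at h0
      simp only [Complex.norm_mul, norm_intCast, Complex.norm_ofNat, norm_real, Real.norm_eq_abs,
        norm_I, mul_one, abs_of_pos Real.pi_pos] at h0
      nlinarith [Real.pi_gt_three]
    rw [hn, hn0]; simp
  have a1 : |phi α| < 1 := by
    have := (abs_re_le_norm g.2.1).trans_lt h3
    rw [e3] at this
    simpa using this
  have a2 : |phi β| < 1 := by
    have := (abs_im_le_norm g.2.1).trans_lt h3
    rw [e3] at this
    simpa using this
  have a3 : |psi α| < 1 := by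
    have := (abs_re_le_norm g.2.2).trans_lt h4
    rw [e4] at this
    simpa using this
  have a4 : |psi β| < 1 := by
    have := (abs_im_le_norm g.2.2).trans_lt h4
    rw [e4] at this
    have h5 : |√2 * psi β| < 1 := by simpa using this
    rw [abs_mul, abs_of_pos (by linarith [one_lt_sqrt2] : (0 : ℝ) < √2)] at h5
    nlinarith [one_lt_sqrt2, abs_nonneg (psi β)]
  have hα := eq_zero_of_small a1 a3
  have hβ := eq_zero_of_small a2 a4
  rw [hα, hβ] at e3 e4
  refine Prod.ext ht (Prod.ext ?_ ?_)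
  · simpa using e3
  · simpa using e4

theorem isDiscrete_Gam : IsDiscrete (Gam : Set G) := by
  rw [isDiscrete_iff_discreteTopology]
  have : DiscreteTopology Gam := by
    rw [discreteTopology_iff_isOpen_singleton_one]
    let U : Set E6 := {g | ‖g.1‖ < 1} ∩ ({g | ‖exp (-g.1) - 1‖ < 1} ∩ ({g | ‖exp g.1 - 1‖ < 1} ∩
      ({g | ‖g.2.1‖ < 1} ∩ {g | ‖g.2.2‖ < 1})))
    have hU : IsOpen U := by
      refine IsOpen.inter ?_ (IsOpen.inter ?_ (IsOpen.inter ?_ (IsOpen.inter ?_ ?_))) <;>
        exact isOpen_lt (by fun_prop) continuous_const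
    have h1 : ({1} : Set Gam) = (fun g : Gam => (g.1 : E6)) ⁻¹' U := by
      ext g
      constructor
      · rintro rfl
        change (0 : E6) ∈ U
        simp [U]
      · rintro ⟨h0, h1, h2, h3, h4⟩
        exact Subtype.ext (eq_zero_of_mem_Gam g.2 h0 h1 h2 h3 h4)
    rw [h1]
    exact hU.preimage continuous_subtype_val
  exact this

instance : ProperlyDiscontinuousSMul Gam G :=
  Gam.properlyDiscontinuousSMul_of_tendsto_cofinite
    (Gam.tendsto_coe_cofinite_of_discrete isDiscrete_Gam)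

/-- The quotient `Γ \ G`. -/
def N : Type := MulAction.orbitRel.Quotient Gam G

instance : TopologicalSpace N :=
  inferInstanceAs (TopologicalSpace (Quotient (MulAction.orbitRel Gam G)))

instance : T2Space N := inferInstanceAs (T2Space (Quotient (MulAction.orbitRel Gam G)))

/-- The covering map `ℂ³ → Γ \ G`. -/
def proj (z : E6) : N := Quotient.mk (MulAction.orbitRel Gam G) z

theorem proj_surjective : Function.Surjective proj := fun x => Quotient.exists_rep x

theorem proj_eq_iff {z w : E6} : proj z = proj w ↔ ∃ g : E6, (g : G) ∈ Gam ∧ gmul g w = z := by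
  constructor
  · intro h
    obtain ⟨g, hg⟩ := MulAction.orbitRel_apply.mp (Quotient.exact h)
    exact ⟨g.1, g.2, hg⟩
  · rintro ⟨g, hg, h⟩
    exact Quotient.sound (MulAction.orbitRel_apply.mpr ⟨⟨g, hg⟩, h⟩)

theorem proj_gmul {g : E6} (hg : (g : G) ∈ Gam) (z : E6) : proj (gmul g z) = proj z :=
  proj_eq_iff.mpr ⟨g, hg, rfl⟩

theorem isLocalHomeomorph_proj : IsLocalHomeomorph proj :=
  (isQuotientCoveringMap_quotientMk_of_properlyDiscontinuousSMul
    (G := Gam) (E := G)).isCoveringMap.isLocalHomeomorph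

theorem continuous_proj : Continuous proj := isLocalHomeomorph_proj.continuous

instance : ConnectedSpace N := proj_surjective.connectedSpace continuous_proj

theorem log_mem_Lt : ((Real.log (2 + √3) : ℝ) : ℂ) ∈ Lt := by
  have h3 := one_lt_sqrt3
  have hpos : (0 : ℝ) < 2 + √3 := by linarith
  refine ⟨⟨2, -1⟩, ?_, ?_⟩
  · rw [← ofReal_neg, ← ofReal_exp, Real.exp_neg, Real.exp_log hpos, phi_apply]
    congr 1
    refine eq_inv_of_mul_eq_one_left ?_
    push_cast
    nlinarith [sqrt3_mul]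
  · rw [← ofReal_exp, Real.exp_log hpos, psi_apply]
    push_cast
    ring

theorem twoPiI_mem_Lt : (2 * Real.pi * I : ℂ) ∈ Lt :=
  ⟨1, by rw [exp_neg, exp_two_pi_mul_I]; simp, by rw [exp_two_pi_mul_I]; simp⟩

theorem exists_bounded (z : E6) :
    ∃ w : E6, ‖w‖ ≤ Real.log (2 + √3) + 2 * Real.pi + 9 ∧ proj w = proj z := by
  have h3 := one_lt_sqrt3
  set c : ℝ := Real.log (2 + √3) with hc
  have hc0 : 0 < c := Real.log_pos (by linarith)
  have hpi := Real.two_pi_pos
  set k : ℤ := ⌊z.1.re / c⌋ with hk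
  set l : ℤ := ⌊z.1.im / (2 * Real.pi)⌋ with hl
  set τ : ℂ := -(k • (c : ℂ) + l • (2 * Real.pi * I : ℂ)) with hτ
  have hτL : τ ∈ Lt :=
    Lt.neg_mem (Lt.add_mem (Lt.zsmul_mem log_mem_Lt k) (Lt.zsmul_mem twoPiI_mem_Lt l))
  obtain ⟨α, ha1, ha2⟩ := exists_approx (exp (-τ) * z.2.1).re (exp τ * z.2.2).re
  obtain ⟨β, hb1, hb2⟩ := exists_approx (exp (-τ) * z.2.1).im ((exp τ * z.2.2).im / √2)
  let g : E6 := (τ, phi α + phi β * I, psi α + √2 * psi β * I)
  have hg : (g : G) ∈ Gam := (mem_Gam g).mpr ⟨hτL, α, β, rfl, rfl⟩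
  refine ⟨gmul g z, ?_, proj_gmul hg z⟩
  have h2 := one_lt_sqrt2
  have h2' := sqrt2_lt_two
  rw [Prod.norm_def, Prod.norm_def, max_le_iff, max_le_iff]
  refine ⟨?_, ?_, ?_⟩
  · refine (norm_le_abs_re_add_abs_im _).trans ?_
    have e1 : (gmul g z).1.re = z.1.re - k * c := by
      simp [gmul, g, hτ]; ring
    have e2 : (gmul g z).1.im = z.1.im - l * (2 * Real.pi) := by
      simp [gmul, g, hτ]; ring
    have b1 : |z.1.re - k * c| ≤ c := by
      have p1 := (le_div_iff₀ hc0).mp (Int.floor_le (z.1.re / c))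
      have p2 := (div_lt_iff₀ hc0).mp (Int.lt_floor_add_one (z.1.re / c))
      rw [abs_le]; constructor <;> nlinarith
    have b2 : |z.1.im - l * (2 * Real.pi)| ≤ 2 * Real.pi := by
      have p1 := (le_div_iff₀ hpi).mp (Int.floor_le (z.1.im / (2 * Real.pi)))
      have p2 := (div_lt_iff₀ hpi).mp (Int.lt_floor_add_one (z.1.im / (2 * Real.pi)))
      rw [abs_le]; constructor <;> nlinarith
    rw [e1, e2]
    linarith
  · refine (norm_le_abs_re_add_abs_im _).trans ?_
    have e1 : (gmul g z).2.1.re = (exp (-τ) * z.2.1).re + phi α := by simp [gmul, g]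
    have e2 : (gmul g z).2.1.im = (exp (-τ) * z.2.1).im + phi β := by simp [gmul, g]
    rw [e1, e2]
    linarith
  · refine (norm_le_abs_re_add_abs_im _).trans ?_
    have e1 : (gmul g z).2.2.re = (exp τ * z.2.2).re + psi α := by simp [gmul, g]
    have e2 : (gmul g z).2.2.im = √2 * ((exp τ * z.2.2).im / √2 + psi β) := by
      have : (gmul g z).2.2.im = (exp τ * z.2.2).im + √2 * psi β := by simp [gmul, g]
      rw [this]
      field_simp
    rw [e1, e2, abs_mul, abs_of_pos (by linarith : (0 : ℝ) < √2)]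
    nlinarith [abs_nonneg ((exp τ * z.2.2).im / √2 + psi β)]

instance : CompactSpace N := by
  refine ⟨?_⟩
  have h : (univ : Set N) =
      proj '' Metric.closedBall (0 : E6) (Real.log (2 + √3) + 2 * Real.pi + 9) := by
    refine (eq_univ_of_forall fun x => ?_).symm
    obtain ⟨z, rfl⟩ := proj_surjective x
    obtain ⟨w, hw, h⟩ := exists_bounded z
    exact ⟨w, mem_closedBall_zero_iff.mpr hw, h⟩
  rw [h]
  exact (isCompact_closedBall _ _).image continuous_proj

end Pool.Agent.Lib.MP_666db5_gt.Fat
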