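import Pool.Agent.Results.MP_666db5_gt.Fat

/-!
The statement of the earlier hand-in on contact foliations without compact leaves follows from the
present one.
-/

set_option autoImplicit false

open scoped Manifold ContDiff

namespace Pool.Agent.Lib.MP_666db5_gt.Fat

theorem earlier_statement :
    ∃ (n q : ℕ), 1 ≤ n ∧ 1 ≤ q ∧
      ∃ (E : Type) (_ : NormedAddCommGroup E) (_ : NormedSpace ℝ E),
        FiniteDimensional ℝ E ∧ Module.finrank ℝ E = 2 * n + q ∧
        ∃ (M : Type) (_ : TopologicalSpace M) (_ : ChartedSpace E M)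
          (_ : IsManifold 𝓘(ℝ, E) ∞ M),
          T2Space M ∧ CompactSpace M ∧ ConnectedSpace M ∧
          ∃ (c : QContact E q M) (R : Fin q → (x : M) → TangentSpace 𝓘(ℝ, E) x)
            (F : (Fin q → ℝ) → M → M),
            c.IsReebFrame R ∧ IsActionOfFlows R F ∧ ∀ x : M, ¬ IsCompact (leaf F x) := by
  obtain ⟨E, i1, i2, h1, h2, M, j1, j2, j3, h3, h4, h5, c, R, F, h6, h7, -, -, h8⟩ :=
    Pool.Agent.Results.MP_666db5_gt.Fat.result
  exact ⟨2, 2, one_le_two, one_le_two, E, i1, i2, h1, h2, M, j1, j2, j3, h3, h4, h5, c, R, F,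
    h6, h7, h8⟩

end Pool.Agent.Lib.MP_666db5_gt.Fat
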