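import Mathlib
import Pool.Agent.Lib.MP_666db5_gt.Defs
import Pool.Agent.Lib.MP_666db5_gt.Fat.Group

/-!
The quotient `Γ \ G` as a smooth manifold whose charts are local inverses of the covering map, and
the descent of invariant 1-forms, vector fields and maps from `ℂ³`.
-/

set_option autoImplicit false

open scoped Manifold ContDiff Topology
open Set Filter Complex

noncomputable section

namespace Pool.Agent.Lib.MP_666db5_gt.Fat

/-- the first coordinate -/
def ct : E6 →L[ℝ] ℂ := ContinuousLinearMap.fst ℝ ℂ (ℂ × ℂ)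

/-- the second coordinate -/
def cx : E6 →L[ℝ] ℂ := (ContinuousLinearMap.fst ℝ ℂ ℂ).comp (ContinuousLinearMap.snd ℝ ℂ (ℂ × ℂ))

/-- the third coordinate -/
def cy : E6 →L[ℝ] ℂ := (ContinuousLinearMap.snd ℝ ℂ ℂ).comp (ContinuousLinearMap.snd ℝ ℂ (ℂ × ℂ))

/-- The linear part `(t, x, y) ↦ (t, e^{-τ} x, e^τ y)` of a left translation. -/
def lin (τ : ℂ) : E6 →L[ℝ] E6 := ct.prod ((exp (-τ) • cx).prod (exp τ • cy))

theorem lin_apply (τ : ℂ) (v : E6) : lin τ v = (v.1, exp (-τ) * v.2.1, exp τ * v.2.2) := rfl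

theorem gmul_eq (g : E6) : gmul g = fun z => lin g.1 z + g := by
  funext z
  simp only [gmul, lin_apply]
  refine Prod.ext (add_comm _ _) rfl

theorem hasFDerivAt_gmul (g z : E6) : HasFDerivAt (gmul g) (lin g.1) z := by
  rw [gmul_eq]
  exact (lin g.1).hasFDerivAt.add_const g

theorem contDiff_gmul (g : E6) : ContDiff ℝ ∞ (gmul g) := by
  rw [gmul_eq]
  exact (lin g.1).contDiff.add contDiff_const

/-- A chosen lift of a point of the quotient. -/
def lift (x : N) : E6 := (proj_surjective x).choose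

theorem proj_lift (x : N) : proj (lift x) = x := (proj_surjective x).choose_spec

instance : ChartedSpace E6 N where
  atlas := Set.range (fun x => isLocalHomeomorph_proj.localInverseAt (lift x))
  chartAt x := isLocalHomeomorph_proj.localInverseAt (lift x)
  mem_chart_source x := by
    have := isLocalHomeomorph_proj.apply_self_mem_localInverseAt_source (x := lift x)
    rwa [proj_lift] at this
  chart_mem_atlas x := ⟨x, rfl⟩

theorem chartAt_symm (x : N) : ⇑(chartAt E6 x).symm = proj :=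
  isLocalHomeomorph_proj.localInverseAt_symm (lift x)

theorem proj_chartAt {x z : N} (hz : z ∈ (chartAt E6 x).source) : proj (chartAt E6 x z) = z := by
  rw [← chartAt_symm x]
  exact (chartAt E6 x).left_inv hz

theorem chartAt_self (x : N) : chartAt E6 x x = lift x := by
  have := isLocalHomeomorph_proj.localInverseAt_apply_self (x := lift x)
  rwa [proj_lift] at this

theorem extChartAt_symm (x : N) : ⇑(extChartAt 𝓘(ℝ, E6) x).symm = proj := by
  rw [← chartAt_symm x]
  rfl

theorem extChartAt_coe' (x : N) : ⇑(extChartAt 𝓘(ℝ, E6) x) = chartAt E6 x := rfl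

/-- In every chart the covering map is locally a left translation by an element of `Γ`. -/
theorem chart_proj_eventuallyEq (x : N) (y : E6) (hy : proj y ∈ (chartAt E6 x).source) :
    ∃ g : E6, (g : G) ∈ Gam ∧ gmul g y = chartAt E6 x (proj y) ∧
      (fun w => chartAt E6 x (proj w)) =ᶠ[𝓝 y] gmul g := by
  obtain ⟨g, hg, hgy⟩ := proj_eq_iff.mp (proj_chartAt hy)
  refine ⟨g, hg, hgy, ?_⟩
  obtain ⟨U, hUo, hU0, hUinj⟩ := isLocalHomeomorph_proj.isLocallyInjective (gmul g y)
  have hcont : ContinuousAt (fun w => chartAt E6 x (proj w)) y :=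
    ContinuousAt.comp (f := proj) ((chartAt E6 x).continuousAt hy) continuous_proj.continuousAt
  have h1 : ∀ᶠ w in 𝓝 y, chartAt E6 x (proj w) ∈ U := by
    apply hcont.preimage_mem_nhds
    rw [← hgy]
    exact hUo.mem_nhds hU0
  have h2 : ∀ᶠ w in 𝓝 y, proj w ∈ (chartAt E6 x).source :=
    continuous_proj.continuousAt.preimage_mem_nhds ((chartAt E6 x).open_source.mem_nhds hy)
  have h3 : ∀ᶠ w in 𝓝 y, gmul g w ∈ U :=
    (contDiff_gmul g).continuous.continuousAt.preimage_mem_nhds (hUo.mem_nhds hU0)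
  filter_upwards [h1, h2, h3] with w hw1 hw2 hw3
  apply hUinj hw1 hw3
  rw [proj_chartAt hw2, proj_gmul hg]

theorem contDiffAt_chart_proj (x : N) (y : E6) (hy : proj y ∈ (chartAt E6 x).source) :
    ContDiffAt ℝ ∞ (fun w => chartAt E6 x (proj w)) y := by
  obtain ⟨g, -, -, h⟩ := chart_proj_eventuallyEq x y hy
  exact (contDiff_gmul g).contDiffAt.congr_of_eventuallyEq h

theorem hasFDerivAt_chart_proj (x : N) (y : E6) (hy : proj y ∈ (chartAt E6 x).source) :
    ∃ g : E6, (g : G) ∈ Gam ∧ gmul g y = chartAt E6 x (proj y) ∧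
      HasFDerivAt (fun w => chartAt E6 x (proj w)) (lin g.1) y := by
  obtain ⟨g, hg, hgy, h⟩ := chart_proj_eventuallyEq x y hy
  exact ⟨g, hg, hgy, (hasFDerivAt_gmul g y).congr_of_eventuallyEq h⟩

instance : IsManifold 𝓘(ℝ, E6) ∞ N := by
  apply isManifold_of_contDiffOn
  rintro e e' ⟨x, rfl⟩ ⟨x', rfl⟩ y hy
  apply ContDiffAt.contDiffWithinAt
  have hy' : proj y ∈ (chartAt E6 x').source := by
    have h1 := hy.1
    simp only [modelWithCornersSelf_coe_symm, preimage_id_eq, id_eq,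
      OpenPartialHomeomorph.trans_source, OpenPartialHomeomorph.symm_source, mem_inter_iff,
      mem_preimage] at h1
    have h2 := h1.2
    rw [isLocalHomeomorph_proj.localInverseAt_symm] at h2
    exact h2
  have := contDiffAt_chart_proj x' y hy'
  convert this using 1
  funext w
  simp only [modelWithCornersSelf_coe, modelWithCornersSelf_coe_symm, Function.comp_apply, id_eq,
    OpenPartialHomeomorph.coe_trans]
  rw [isLocalHomeomorph_proj.localInverseAt_symm]
  rfl

theorem hasMFDerivAt_proj (y : E6) : ∃ g : E6, (g : G) ∈ Gam ∧ gmul g y = lift (proj y) ∧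
    HasMFDerivAt 𝓘(ℝ, E6) 𝓘(ℝ, E6) proj y (lin g.1) := by
  obtain ⟨g, hg, hgy, h⟩ := hasFDerivAt_chart_proj (proj y) y (mem_chart_source E6 (proj y))
  exact ⟨g, hg, hgy.trans (chartAt_self _), continuous_proj.continuousAt, h.hasFDerivWithinAt⟩

theorem contMDiff_proj : ContMDiff 𝓘(ℝ, E6) 𝓘(ℝ, E6) ∞ proj := by
  intro y
  rw [contMDiffAt_iff]
  refine ⟨continuous_proj.continuousAt, ?_⟩
  have := contDiffAt_chart_proj (proj y) y (mem_chart_source E6 (proj y))
  exact this.contDiffWithinAt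

theorem tangentCoordChange_eq {x x' z : N} (hz : z ∈ (chartAt E6 x).source)
    (hz' : z ∈ (chartAt E6 x').source) :
    ∃ g : E6, (g : G) ∈ Gam ∧ gmul g (chartAt E6 x z) = chartAt E6 x' z ∧
      (tangentBundleCore 𝓘(ℝ, E6) N).coordChange (achart E6 x) (achart E6 x') z = lin g.1 := by
  have h : proj (chartAt E6 x z) ∈ (chartAt E6 x').source := by rwa [proj_chartAt hz]
  obtain ⟨g, hg, hgy, h1⟩ := hasFDerivAt_chart_proj x' _ h
  refine ⟨g, hg, by rw [hgy, proj_chartAt hz], ?_⟩
  rw [tangentBundleCore_coordChange_achart, extChartAt_symm, extChartAt_coe', extChartAt_coe',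
    modelWithCornersSelf_coe, range_id, fderivWithin_univ]
  exact h1.fderiv

theorem mfderiv_extChartAt_self (x : N) (v : E6) :
    mfderiv 𝓘(ℝ, E6) 𝓘(ℝ, E6) (extChartAt 𝓘(ℝ, E6) x) x v = v := by
  have h := (hasMFDerivAt_extChartAt (I := 𝓘(ℝ, E6)) (x := x) (mem_chart_source E6 x)).mfderiv
  rw [h]
  have h2 := mfderiv_chartAt_eq_tangentCoordChange (I := 𝓘(ℝ, E6)) (x := x) (y := x)
    (mem_chart_source E6 x)
  rw [h2]
  exact tangentCoordChange_self (I := 𝓘(ℝ, E6)) (x := x) (z := x) (v := v)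
    (mem_extChartAt_source x)

/-- The 1-form on the quotient given by a 1-form on `ℂ³`. -/
def descForm (A : E6 → E6 →L[ℝ] ℝ) : OneForm E6 N := fun x => A (lift x)

/-- The vector field on the quotient given by a vector field on `ℂ³`. -/
def descField (V : E6 → E6) (x : N) : TangentSpace 𝓘(ℝ, E6) x := V (lift x)

theorem isSmoothForm_descForm {A : E6 → E6 →L[ℝ] ℝ} (hA : ContDiff ℝ ∞ A)
    (hinv : ∀ g z v : E6, A (gmul g z) (lin g.1 v) = A z v) : IsSmoothForm (descForm A) := by
  intro x₀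
  rw [contMDiffAt_hom_bundle]
  refine ⟨contMDiffAt_id, ?_⟩
  have h1 : ContMDiffAt 𝓘(ℝ, E6) 𝓘(ℝ, E6 →L[ℝ] ℝ) ∞ (A ∘ extChartAt 𝓘(ℝ, E6) x₀) x₀ :=
    ContMDiffAt.comp x₀ (hA.contMDiff.contMDiffAt) contMDiffAt_extChartAt
  refine h1.congr_of_eventuallyEq ?_
  filter_upwards [(chartAt E6 x₀).open_source.mem_nhds (mem_chart_source E6 x₀)] with z hz
  obtain ⟨g, -, hgy, h⟩ := tangentCoordChange_eq hz (mem_chart_source E6 z)
  simp only [ContinuousLinearMap.inCoordinates]
  rw [TangentBundle.symmL_trivializationAt_eq_core hz, h]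
  refine ContinuousLinearMap.ext fun v => ?_
  simp only [descForm, Bundle.Trivial.fiberBundle_trivializationAt',
    Bundle.Trivial.continuousLinearMapAt_trivialization]
  change A (lift z) (lin g.1 v) = A (chartAt E6 x₀ z) v
  rw [← chartAt_self z, ← hgy, hinv]

theorem formInChart_descForm {A : E6 → E6 →L[ℝ] ℝ}
    (hinv : ∀ g z v : E6, A (gmul g z) (lin g.1 v) = A z v) (x : N) :
    formInChart (descForm A) x = A := by
  funext y
  obtain ⟨g, -, hgy, h⟩ := hasMFDerivAt_proj y
  unfold formInChart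
  rw [extChartAt_symm, h.mfderiv]
  refine ContinuousLinearMap.ext fun v => ?_
  change A (lift (proj y)) (lin g.1 v) = A y v
  rw [← hgy, hinv]

theorem extD_descForm {A : E6 → E6 →L[ℝ] ℝ}
    (hinv : ∀ g z v : E6, A (gmul g z) (lin g.1 v) = A z v) (x : N) (u v : E6) :
    extD (descForm A) x u v = fderiv ℝ A (lift x) u v - fderiv ℝ A (lift x) v u := by
  unfold extD
  rw [formInChart_descForm hinv, mfderiv_extChartAt_self, mfderiv_extChartAt_self,
    extChartAt_coe', chartAt_self]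

theorem contMDiff_descField {V : E6 → E6} (hV : ContDiff ℝ ∞ V)
    (hinv : ∀ g z : E6, V (gmul g z) = lin g.1 (V z)) :
    ContMDiff 𝓘(ℝ, E6) 𝓘(ℝ, E6).tangent ∞
      (fun x : N => (⟨x, descField V x⟩ : TangentBundle 𝓘(ℝ, E6) N)) := by
  intro x₀
  rw [Bundle.contMDiffAt_totalSpace]
  refine ⟨contMDiffAt_id, ?_⟩
  have h1 : ContMDiffAt 𝓘(ℝ, E6) 𝓘(ℝ, E6) ∞ (V ∘ extChartAt 𝓘(ℝ, E6) x₀) x₀ :=
    ContMDiffAt.comp x₀ (hV.contMDiff.contMDiffAt) contMDiffAt_extChartAt
  refine h1.congr_of_eventuallyEq ?_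
  filter_upwards [(chartAt E6 x₀).open_source.mem_nhds (mem_chart_source E6 x₀)] with z hz
  obtain ⟨g, -, hgy, h⟩ := tangentCoordChange_eq (mem_chart_source E6 z) hz
  have h2 := DFunLike.congr_fun h (V (lift z))
  refine h2.trans ?_
  change _ = V (chartAt E6 x₀ z)
  rw [← hgy, hinv, chartAt_self]

/-- A curve in `ℂ³` tangent to an invariant vector field projects to an integral curve. -/
theorem isMIntegralCurve_proj {V : E6 → E6} (hinv : ∀ g z : E6, V (gmul g z) = lin g.1 (V z))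
    {c : ℝ → E6} (hc : ∀ τ, HasDerivAt c (V (c τ)) τ) :
    IsMIntegralCurve (I := 𝓘(ℝ, E6)) (fun τ => proj (c τ)) (descField V) := by
  intro τ
  obtain ⟨g, -, hgy, h⟩ := hasMFDerivAt_proj (c τ)
  have h2 := h.comp τ (hc τ).hasFDerivAt.hasMFDerivAt
  have h4 : descField V (proj (c τ)) = lin g.1 (V (c τ)) := by
    unfold descField
    rw [← hgy, hinv]
  have h5 : (1 : ℝ →L[ℝ] ℝ).smulRight (lin g.1 (V (c τ))) =
      (lin g.1).comp (ContinuousLinearMap.toSpanSingleton ℝ (V (c τ))) := by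
    refine ContinuousLinearMap.ext fun r => ?_
    simp
  rw [h4]
  exact h2.congr_mfderiv h5.symm

end Pool.Agent.Lib.MP_666db5_gt.Fat
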