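import Mathlib
import Pool.Agent.Lib.MP_666db5_gt.Defs
import Pool.Agent.Lib.MP_666db5_gt.Fat.Manifold

/-!
The 2-contact structure `λ₁ + i λ₂ = e^t dx + e^{-t} dy` on the quotient `Γ \ G`, its Reeb fields
and its contact action.
-/

set_option autoImplicit false

open scoped Manifold ContDiff Topology
open Set Filter Complex

noncomputable section

namespace Pool.Agent.Lib.MP_666db5_gt.Fat

/-- `w ↦ Re (w · c)` for a complex coordinate `c` -/
def reMul (c : E6 →L[ℝ] ℂ) : ℂ →L[ℝ] E6 →L[ℝ] ℝ :=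
  reCLM.smulRight (reCLM.comp c) - imCLM.smulRight (imCLM.comp c)

theorem reMul_apply (c : E6 →L[ℝ] ℂ) (w : ℂ) (v : E6) : reMul c w v = (w * c v).re := by
  rw [mul_re]
  rfl

/-- the holomorphic contact form `θ = e^t dx + e^{-t} dy` -/
def th (t : ℂ) (v : E6) : ℂ := exp t * v.2.1 + exp (-t) * v.2.2

/-- the form `e^t dx - e^{-t} dy`, so that `dθ = dt ∧ η` -/
def eta (t : ℂ) (v : E6) : ℂ := exp t * v.2.1 - exp (-t) * v.2.2

/-- the real form `Re (c θ)` on `ℂ³` -/
def A (c : ℂ) (z : E6) : E6 →L[ℝ] ℝ := reMul cx (c * exp z.1) + reMul cy (c * exp (-z.1))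

theorem A_apply (c : ℂ) (z v : E6) : A c z v = (c * th z.1 v).re := by
  change reMul cx (c * exp z.1) v + reMul cy (c * exp (-z.1)) v = _
  rw [reMul_apply, reMul_apply, ← add_re, th]
  congr 1
  change c * exp z.1 * v.2.1 + c * exp (-z.1) * v.2.2 = _
  ring

theorem contDiff_A (c : ℂ) : ContDiff ℝ ∞ (A c) :=
  ((reMul cx).contDiff.comp (contDiff_const.mul contDiff_fst.cexp)).add
    ((reMul cy).contDiff.comp (contDiff_const.mul contDiff_fst.neg.cexp))

theorem th_inv (g z v : E6) : th (gmul g z).1 (lin g.1 v) = th z.1 v := by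
  simp only [th, gmul, lin_apply, neg_add, exp_add]
  linear_combination (exp z.1 * v.2.1 + exp (-z.1) * v.2.2) * exp_mul_exp_neg g.1

theorem A_inv (c : ℂ) (g z v : E6) : A c (gmul g z) (lin g.1 v) = A c z v := by
  rw [A_apply, A_apply, th_inv]

theorem fderiv_A (c : ℂ) (z u v : E6) : fderiv ℝ (A c) z u v = (c * (u.1 * eta z.1 v)).re := by
  have h1 : HasFDerivAt (fun z : E6 => z.1) ct z := ct.hasFDerivAt
  have h2 := ((reMul cx).hasFDerivAt.comp z (h1.cexp.const_mul c)).add
    ((reMul cy).hasFDerivAt.comp z (h1.neg.cexp.const_mul c))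
  have h3 : fderiv ℝ (A c) z = _ := h2.fderiv
  rw [h3]
  change reMul cx (c * (exp z.1 * u.1)) v + reMul cy (c * (exp (-z.1) * (-u.1))) v = _
  rw [reMul_apply, reMul_apply, ← add_re, eta]
  congr 1
  change c * (exp z.1 * u.1) * v.2.1 + c * (exp (-z.1) * (-u.1)) * v.2.2 = _
  ring

theorem extD_A (c : ℂ) (x : N) (u v : E6) : extD (descForm (A c)) x u v =
    (c * (u.1 * eta (lift x).1 v - v.1 * eta (lift x).1 u)).re := by
  rw [extD_descForm (A_inv c), fderiv_A, fderiv_A, ← sub_re, mul_sub]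

/-- the vector field `s (e^{-t} ∂x + e^t ∂y) / 2` on `ℂ³` -/
def V (s : ℂ) (z : E6) : E6 := (0, s * exp (-z.1) / 2, s * exp z.1 / 2)

theorem V_inv (s : ℂ) (g z : E6) : V s (gmul g z) = lin g.1 (V s z) := by
  simp only [V, gmul, lin_apply, neg_add, exp_add, Prod.mk.injEq]
  exact ⟨trivial, by ring, by ring⟩

theorem th_V (s : ℂ) (z : E6) : th z.1 (V s z) = s := by
  simp only [th, V]
  linear_combination s * exp_mul_exp_neg z.1

theorem eta_V (s : ℂ) (z : E6) : eta z.1 (V s z) = 0 := by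
  simp only [eta, V]
  ring

theorem contDiff_V₂ : ContDiff ℝ ∞ (fun p : ℂ × E6 => V p.1 p.2) :=
  contDiff_const.prodMk (((contDiff_fst.mul contDiff_snd.fst.neg.cexp).div_const 2).prodMk
    ((contDiff_fst.mul contDiff_snd.fst.cexp).div_const 2))

theorem contDiff_V (s : ℂ) : ContDiff ℝ ∞ (V s) :=
  contDiff_V₂.comp (contDiff_const.prodMk contDiff_id)

theorem eq_zero_of_re {w : ℂ} (h : ∀ s : ℂ, (w * s).re = 0) : w = 0 := by
  have h1 := h 1
  have h2 := h I
  apply Complex.ext
  · simpa using h1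
  · simpa using h2

theorem eq_zero_of_th_eta {t : ℂ} {u : E6} (h1 : u.1 = 0) (h2 : th t u = 0) (h3 : eta t u = 0) :
    u = 0 := by
  unfold th at h2
  unfold eta at h3
  have h4 : exp t * u.2.1 = 0 := by linear_combination (h2 + h3) / 2
  have h5 : exp (-t) * u.2.2 = 0 := by linear_combination (h2 - h3) / 2
  exact Prod.ext h1 (Prod.ext ((mul_eq_zero.mp h4).resolve_left (exp_ne_zero _))
    ((mul_eq_zero.mp h5).resolve_left (exp_ne_zero _)))

/-- It is enough to test the 2-form `Re (c dθ)` against vectors killed by `θ`. -/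
theorem ker_of_xi {c : ℂ} (hc : c ≠ 0) (x : N) (u : E6)
    (h : ∀ v : E6, th (lift x).1 v = 0 → extD (descForm (A c)) x u v = 0) :
    u.1 = 0 ∧ eta (lift x).1 u = 0 := by
  constructor
  · have h1 : c * u.1 = 0 := by
      refine eq_zero_of_re fun s => ?_
      have h2 := h (0, s * exp (-(lift x).1) / 2, -(s * exp (lift x).1 / 2))
        (by simp only [th]; ring)
      rw [extD_A] at h2
      rw [← h2]
      congr 1
      simp only [eta]
      linear_combination (-(c * u.1 * s)) * exp_mul_exp_neg (lift x).1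
    exact (mul_eq_zero.mp h1).resolve_left hc
  · have h1 : c * eta (lift x).1 u = 0 := by
      refine eq_zero_of_re fun s => ?_
      have h2 := h (-s, 0, 0) (by simp [th])
      rw [extD_A] at h2
      rw [← h2]
      congr 1
      simp only [eta]
      ring
    exact (mul_eq_zero.mp h1).resolve_left hc

/-- `θ` as a real-linear map -/
def thL (t : ℂ) : E6 →L[ℝ] ℂ := exp t • cx + exp (-t) • cy

/-- `η` as a real-linear map -/
def etaL (t : ℂ) : E6 →L[ℝ] ℂ := exp t • cx - exp (-t) • cy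

/-- the bundle spanned by the Reeb fields -/
def reebSub (x : N) : Submodule ℝ E6 := ct.ker ⊓ (etaL (lift x).1).ker

theorem mem_reebSub (x : N) (u : E6) : u ∈ reebSub x ↔ u.1 = 0 ∧ eta (lift x).1 u = 0 := Iff.rfl

/-- the contact distribution -/
def xiSub (x : N) : Submodule ℝ E6 := (thL (lift x).1).ker

theorem mem_xiSub (x : N) (u : E6) : u ∈ xiSub x ↔ th (lift x).1 u = 0 := Iff.rfl

theorem mem_reeb_iff {c : ℂ} (hc : c ≠ 0) (x : N) (u : E6) :
    u ∈ reebSub x ↔ ∀ v : E6, extD (descForm (A c)) x u v = 0 := by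
  constructor
  · intro hu v
    rw [extD_A, ((mem_reebSub x u).mp hu).1, ((mem_reebSub x u).mp hu).2]
    simp
  · exact fun h => (mem_reebSub x u).mpr (ker_of_xi hc x u fun v _ => h v)

theorem isCompl_sub (x : N) : IsCompl (reebSub x) (xiSub x) := by
  constructor
  · rw [Submodule.disjoint_def]
    intro u hu hu'
    exact eq_zero_of_th_eta hu.1 hu' hu.2
  · rw [codisjoint_iff, eq_top_iff]
    intro v _
    rw [Submodule.mem_sup]
    refine ⟨V (th (lift x).1 v) (lift x), (mem_reebSub x _).mpr ⟨rfl, eta_V _ _⟩,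
      v - V (th (lift x).1 v) (lift x), ?_, by abel⟩
    have h : thL (lift x).1 (v - V (th (lift x).1 v) (lift x)) = 0 := by
      rw [map_sub]
      exact sub_eq_zero.mpr (th_V _ _).symm
    exact h

/-- the constants `c` with `λ_i = Re (c θ)` -/
def cc : Fin 2 → ℂ := ![1, -I]

/-- the constants `s` with `R_i = V s` -/
def ss : Fin 2 → ℂ := ![1, I]

theorem cc_ne_zero (i : Fin 2) : cc i ≠ 0 := by
  fin_cases i <;> simp [cc]

theorem cc_ss (i j : Fin 2) : (cc j * ss i).re = if i = j then 1 else 0 := by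
  fin_cases i <;> fin_cases j <;> simp [cc, ss]

theorem A_V (i j : Fin 2) (z : E6) : A (cc j) z (V (ss i) z) = if i = j then 1 else 0 := by
  rw [A_apply, th_V, cc_ss]

/-- The 2-contact structure. -/
def structure6 : QContact E6 2 N where
  lam i := descForm (A (cc i))
  reeb := fun x => reebSub x
  xi := fun x => xiSub x
  smooth i := isSmoothForm_descForm (contDiff_A _) (A_inv _)
  linearIndependent := by
    intro x
    rw [Fintype.linearIndependent_iff]
    intro g hg j
    have h1 : (∑ i, g i • A (cc i) (lift x)) = 0 := hg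
    have h2 := DFunLike.congr_fun h1 (V (ss j) (lift x))
    fin_cases j <;> simpa [Fin.sum_univ_two, A_V] using h2
  isCompl := isCompl_sub
  mem_xi := by
    intro x v
    rw [Fin.forall_fin_two]
    have h : ∀ w : E6,
        th (lift x).1 w = 0 ↔ A (cc 0) (lift x) w = 0 ∧ A (cc 1) (lift x) w = 0 := by
      intro w
      rw [A_apply, A_apply, Complex.ext_iff]
      simp [cc]
    exact h v
  nondegenerate := fun i x u hu h =>
    eq_zero_of_th_eta (ker_of_xi (cc_ne_zero i) x u h).1 hu (ker_of_xi (cc_ne_zero i) x u h).2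
  mem_reeb := fun i x u => mem_reeb_iff (cc_ne_zero i) x u

/-- Every non-trivial combination of the two forms has a differential with kernel `𝓡`. -/
theorem fat (a : Fin 2 → ℝ) (ha : a ≠ 0) (x : N) (u : TangentSpace 𝓘(ℝ, E6) x) :
    u ∈ structure6.reeb x ↔ ∀ v, extD (fun y => ∑ i, a i • structure6.lam i y) x u v = 0 := by
  have h1 : (fun y => ∑ i, a i • structure6.lam i y) = descForm (A (a 0 - a 1 * I)) := by
    funext y
    refine ContinuousLinearMap.ext fun v => ?_
    rw [Fin.sum_univ_two]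
    have h : ∀ w : E6, a 0 * A (cc 0) (lift y) w + a 1 * A (cc 1) (lift y) w =
        A (a 0 - a 1 * I) (lift y) w := by
      intro w
      rw [A_apply, A_apply, A_apply]
      simp [cc]
    exact h v
  have h2 : (a 0 - a 1 * I : ℂ) ≠ 0 := by
    intro h
    apply ha
    have h3 := congrArg re h
    have h4 := congrArg im h
    funext i
    fin_cases i
    · simpa using h3
    · simpa using h4
  rw [h1]
  exact mem_reeb_iff h2 x u

/-- The Reeb fields. -/
def reebField (i : Fin 2) : (x : N) → TangentSpace 𝓘(ℝ, E6) x := descField (V (ss i))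

theorem isReebFrame : structure6.IsReebFrame reebField :=
  ⟨fun _ => contMDiff_descField (contDiff_V _) (V_inv _),
    fun _ x => (mem_reebSub x _).mpr ⟨rfl, eta_V _ _⟩, fun i j x => A_V i j (lift x)⟩

/-- The complex number with given real and imaginary parts. -/
def toC (s : Fin 2 → ℝ) : ℂ := s 0 + s 1 * I

/-- The lift of the contact action to `ℂ³`. -/
def flow (s : ℂ) (z : E6) : E6 := z + V s z

theorem flow_gmul (s : ℂ) (g z : E6) : flow s (gmul g z) = gmul g (flow s z) := by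
  rw [flow, V_inv, flow, gmul_eq]
  simp only [map_add]
  abel

theorem flow_add (s s' : ℂ) (z : E6) : flow (s + s') z = flow s (flow s' z) := by
  simp only [flow, V, Prod.fst_add, add_zero]
  refine Prod.ext (by simp) (Prod.ext ?_ ?_) <;> simp <;> ring

/-- The contact action. -/
def act (s : Fin 2 → ℝ) (x : N) : N := proj (flow (toC s) (lift x))

theorem act_proj (s : Fin 2 → ℝ) (z : E6) : act s (proj z) = proj (flow (toC s) z) := by
  obtain ⟨g, hg, h⟩ := proj_eq_iff.mp (proj_lift (proj z))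
  rw [act, ← h, flow_gmul, proj_gmul hg]

theorem contMDiff_act : ContMDiff (𝓘(ℝ, Fin 2 → ℝ).prod 𝓘(ℝ, E6)) 𝓘(ℝ, E6) ∞
    (fun p : (Fin 2 → ℝ) × N => act p.1 p.2) := by
  intro p₀
  have hC : ContDiff ℝ ∞ toC := by
    unfold toC
    exact (ofRealCLM.contDiff.comp (contDiff_apply ℝ ℝ 0)).add
      ((ofRealCLM.contDiff.comp (contDiff_apply ℝ ℝ 1)).mul contDiff_const)
  have hF : ContDiff ℝ ∞ (fun p : ℂ × E6 => flow p.1 p.2) := contDiff_snd.add contDiff_V₂
  have hc : ContMDiffAt (𝓘(ℝ, Fin 2 → ℝ).prod 𝓘(ℝ, E6)) 𝓘(ℝ, ℂ) ∞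
      (fun p : (Fin 2 → ℝ) × N => toC p.1) p₀ :=
    ContMDiffAt.comp p₀ (hC.contMDiff _) contMDiffAt_fst
  have he : ContMDiffAt (𝓘(ℝ, Fin 2 → ℝ).prod 𝓘(ℝ, E6)) 𝓘(ℝ, E6) ∞
      (fun p : (Fin 2 → ℝ) × N => extChartAt 𝓘(ℝ, E6) p₀.2 p.2) p₀ :=
    ContMDiffAt.comp p₀ (contMDiffAt_extChartAt (I := 𝓘(ℝ, E6)) (x := p₀.2)) contMDiffAt_snd
  have h0 : ContMDiffAt (𝓘(ℝ, Fin 2 → ℝ).prod 𝓘(ℝ, E6)) 𝓘(ℝ, E6) ∞
      (fun p : (Fin 2 → ℝ) × N => flow (toC p.1) (extChartAt 𝓘(ℝ, E6) p₀.2 p.2)) p₀ :=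
    ContMDiffAt.comp p₀ (hF.contMDiff _) (hc.prodMk_space he)
  have h1 : ContMDiffAt (𝓘(ℝ, Fin 2 → ℝ).prod 𝓘(ℝ, E6)) 𝓘(ℝ, E6) ∞
      (fun p : (Fin 2 → ℝ) × N => proj (flow (toC p.1) (extChartAt 𝓘(ℝ, E6) p₀.2 p.2))) p₀ :=
    ContMDiffAt.comp p₀ (contMDiff_proj _) h0
  refine h1.congr_of_eventuallyEq ?_
  have h2 : ∀ᶠ p : (Fin 2 → ℝ) × N in 𝓝 p₀, p.2 ∈ (chartAt E6 p₀.2).source :=
    continuous_snd.continuousAt.preimage_mem_nhds
      ((chartAt E6 p₀.2).open_source.mem_nhds (mem_chart_source E6 p₀.2))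
  filter_upwards [h2] with p hp
  rw [← act_proj, extChartAt_coe', proj_chartAt hp]

theorem isActionOfFlows : IsActionOfFlows reebField act := by
  refine ⟨contMDiff_act, fun x => ?_, fun s t x => ?_, fun i x => ?_⟩
  · have h : flow (toC 0) (lift x) = lift x := by simp [flow, toC, V]
    rw [act, h, proj_lift]
  · have h : toC (s + t) = toC s + toC t := by
      simp only [toC, Pi.add_apply, ofReal_add]
      ring
    rw [act, h, flow_add, ← act_proj]
    rfl
  · have h1 : ∀ τ : ℝ, flow (toC (Pi.single i τ)) (lift x) = lift x + τ • V (ss i) (lift x) := by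
      intro τ
      have h2 : toC (Pi.single i τ) = τ * ss i := by
        fin_cases i <;> simp [toC, ss]
      rw [flow, h2]
      congr 1
      simp only [V, Prod.smul_mk, smul_zero, real_smul, Prod.mk.injEq]
      exact ⟨trivial, by ring, by ring⟩
    simp only [act, h1]
    refine isMIntegralCurve_proj (V_inv _) (c := fun τ => lift x + τ • V (ss i) (lift x)) fun τ => ?_
    have h3 : V (ss i) (lift x + τ • V (ss i) (lift x)) = V (ss i) (lift x) := by
      simp [V]
    rw [h3]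
    simpa using ((hasDerivAt_id τ).smul_const (V (ss i) (lift x))).const_add (lift x)

end Pool.Agent.Lib.MP_666db5_gt.Fat
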