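import Mathlib
import Pool.Agent.Lib.MP_666db5_gt.Defs
import Pool.Agent.Lib.MP_666db5_gt.Fat.Structure

/-!
No leaf of the contact foliation on `Γ \ G` is compact: two points of the lattice on one complex
line through the origin lie on one real line.
-/

set_option autoImplicit false

open scoped Manifold ContDiff Topology
open Set Filter Complex

noncomputable section

namespace Pool.Agent.Lib.MP_666db5_gt.Fat

/-- If an orbit of a continuous action of `ℝ^q` is compact, a bounded set of times fills it. -/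
theorem exists_bound_of_isCompact {q : ℕ} {M : Type} [TopologicalSpace M] [T2Space M]
    {F : (Fin q → ℝ) → M → M} (hF : Continuous fun p : (Fin q → ℝ) × M => F p.1 p.2)
    (h0 : ∀ x, F 0 x = x) (hadd : ∀ s t x, F (s + t) x = F s (F t x)) {x : M}
    (hc : IsCompact (leaf F x)) : ∃ C : ℝ, ∀ s, ∃ s', ‖s'‖ ≤ C ∧ F s' x = F s x := by
  have hx : Continuous fun s => F s x := hF.comp (continuous_id.prodMk continuous_const)
  have : CompactSpace (leaf F x) := isCompact_iff_compactSpace.mp hc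
  have : Nonempty (leaf F x) := ⟨⟨x, 0, h0 x⟩⟩
  let K : ℕ → Set (leaf F x) := fun n =>
    Subtype.val ⁻¹' ((fun s => F s x) '' Metric.closedBall 0 n)
  have hK : ∀ n, IsClosed (K n) := fun n =>
    ((isCompact_closedBall _ _).image hx).isClosed.preimage continuous_subtype_val
  have hU : ⋃ n, K n = univ := by
    refine eq_univ_of_forall ?_
    rintro ⟨_, s, rfl⟩
    obtain ⟨n, hn⟩ := exists_nat_ge ‖s‖
    exact mem_iUnion.mpr ⟨n, s, mem_closedBall_zero_iff.mpr hn, rfl⟩
  obtain ⟨n, ⟨_, s₀, rfl⟩, hk⟩ := nonempty_interior_of_iUnion_of_closed hK hU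
  obtain ⟨W, hW, hWo, hW0⟩ := mem_interior.mp hk
  obtain ⟨U, hUo, rfl⟩ := isOpen_induced_iff.mp hWo
  obtain ⟨T, hT⟩ := hc.elim_finite_subcover (fun t : Fin q → ℝ => F t ⁻¹' U)
    (fun t => hUo.preimage (hF.comp (continuous_const.prodMk continuous_id))) (by
      rintro _ ⟨s, rfl⟩
      refine mem_iUnion.mpr ⟨s₀ - s, ?_⟩
      change F (s₀ - s) (F s x) ∈ U
      rw [← hadd, sub_add_cancel]
      exact hW0)
  refine ⟨n + ∑ t ∈ T, ‖t‖, fun s => ?_⟩
  obtain ⟨t, ht, hts⟩ := mem_iUnion₂.mp (hT ⟨s, rfl⟩)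
  have h1 : (⟨F (t + s) x, t + s, rfl⟩ : leaf F x) ∈ K n := by
    apply hW
    change F (t + s) x ∈ U
    rw [hadd]
    exact hts
  obtain ⟨b, hb, hbe⟩ := h1
  refine ⟨-t + b, ?_, ?_⟩
  · have h2 : ‖t‖ ≤ ∑ t ∈ T, ‖t‖ :=
      Finset.single_le_sum (f := fun t : Fin q → ℝ => ‖t‖) (fun _ _ => norm_nonneg _) ht
    have h3 := norm_add_le (-t) b
    rw [norm_neg] at h3
    linarith [mem_closedBall_zero_iff.mp hb]
  · have h4 : F b x = F (t + s) x := hbe
    rw [hadd, h4, ← hadd, neg_add_cancel_left]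

theorem int_of_irrational {r : ℝ} (hr : Irrational r) {a b : ℤ} (h : (a : ℝ) + r * b = 0) :
    a = 0 ∧ b = 0 := by
  have hb : b = 0 := by
    by_contra hb
    have := (hr.mul_intCast hb).intCast_add a
    rw [h] at this
    exact this ⟨0, by simp⟩
  rw [hb] at h
  exact ⟨by simpa using h, hb⟩

theorem irrational_sqrt3 : Irrational (√3) := by
  simpa using (Nat.prime_three).irrational_sqrt

theorem eq_zero_of_phi_psi {w : ℤ√3} (h : phi w = √2 * psi w) : w = 0 := by
  have h2 : (√2 : ℝ) * √2 = 2 := Real.mul_self_sqrt (by norm_num)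
  rw [phi_apply, psi_apply] at h
  have h3 : ((-(w.re ^ 2 + 3 * w.im ^ 2) : ℤ) : ℝ) + √3 * ((6 * w.re * w.im : ℤ) : ℝ) = 0 := by
    push_cast
    have h4 : ((w.re : ℝ) + w.im * √3) ^ 2 = (√2 * (w.re - w.im * √3)) ^ 2 := by rw [h]
    linear_combination h4 + ((w.re : ℝ) - w.im * √3) ^ 2 * h2 + (w.im : ℝ) ^ 2 * sqrt3_mul
  have h5 := (int_of_irrational irrational_sqrt3 h3).1
  refine Zsqrtd.ext ?_ ?_
  · change w.re = 0
    nlinarith [sq_nonneg w.re, sq_nonneg w.im]
  · change w.im = 0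
    nlinarith [sq_nonneg w.re, sq_nonneg w.im]

theorem sub_eq_zero_of_phi_psi {v w : ℤ√3} (h : phi v - psi v = √2 * (phi w - psi w)) :
    phi v = psi v ∧ phi w = psi w := by
  simp only [phi_apply, psi_apply] at h ⊢
  have h3 : (0 : ℝ) < √3 := by linarith [one_lt_sqrt3]
  have h4 : ((v.im : ℤ) : ℝ) + √2 * ((-w.im : ℤ) : ℝ) = 0 := by
    push_cast
    apply mul_right_cancel₀ h3.ne'
    linear_combination h / 2
  obtain ⟨h5, h6⟩ := int_of_irrational irrational_sqrt_two h4
  have h7 : w.im = 0 := by omega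
  rw [h5, h7]
  simp

/-- Two points of the lattice on one complex line through the origin are real multiples of one
another. -/
theorem im_eq_zero_of_InLam {a₁ b₁ a₂ b₂ : ℂ} (h₁ : InLam a₁ b₁) (h₂ : InLam a₂ b₂)
    (h : a₁ * b₂ = a₂ * b₁) (hb : b₁ ≠ 0) : a₁.im * a₂.re - a₁.re * a₂.im = 0 := by
  obtain ⟨α₁, β₁, rfl, rfl⟩ := h₁
  obtain ⟨α₂, β₂, rfl, rfl⟩ := h₂
  have hre := congrArg re h
  have him := congrArg im h
  simp only [mul_re, mul_im, add_re, add_im, ofReal_re, ofReal_im, I_re, I_im, mul_zero, mul_one,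
    sub_zero, add_zero, zero_add, zero_mul, sub_self] at hre him ⊢
  obtain ⟨e1, e2⟩ := sub_eq_zero_of_phi_psi (v := α₁ * star α₂) (w := β₁ * star β₂) (by
    simp only [map_mul, phi_star, psi_star]
    linear_combination hre)
  have e3 := eq_zero_of_phi_psi (w := β₁ * star α₂ - β₂ * star α₁) (by
    simp only [map_sub, map_mul, phi_star, psi_star]
    linear_combination him)
  have e4 := congrArg phi e3
  have e5 := congrArg psi e3
  simp only [map_sub, map_mul, phi_star, psi_star, map_zero] at e1 e2 e4 e5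
  by_contra hne
  apply hb
  have f1 : psi α₁ = 0 := by
    apply mul_left_cancel₀ hne
    linear_combination (-phi β₁) * e1 + phi α₁ * e4
  have f2 : psi β₁ = 0 := by
    apply mul_left_cancel₀ hne
    linear_combination phi β₁ * e5 + phi α₁ * e2
  rw [f1, f2]
  simp

theorem inLam_of_act {s : Fin 2 → ℝ} {x : N} (h : act s x = x) :
    InLam (toC s * exp (-(lift x).1) / 2) (toC s * exp (lift x).1 / 2) := by
  obtain ⟨g, hg, hgz⟩ := proj_eq_iff.mp (h.trans (proj_lift x).symm)
  have h1 : g.1 + (lift x).1 = (lift x).1 + 0 := congrArg Prod.fst hgz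
  have h2 : exp (-g.1) * (lift x).2.1 + g.2.1 = (lift x).2.1 + toC s * exp (-(lift x).1) / 2 :=
    congrArg (fun z : E6 => z.2.1) hgz
  have h3 : exp g.1 * (lift x).2.2 + g.2.2 = (lift x).2.2 + toC s * exp (lift x).1 / 2 :=
    congrArg (fun z : E6 => z.2.2) hgz
  have h4 : g.1 = 0 := by linear_combination h1
  rw [h4, neg_zero, exp_zero, one_mul] at h2
  rw [h4, exp_zero, one_mul] at h3
  rw [← add_left_cancel h2, ← add_left_cancel h3]
  exact ((mem_Gam g).mp hg).2

/-- Two periods of one leaf are real multiples of one another. -/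
theorem det_eq_zero_of_act {s t : Fin 2 → ℝ} {x : N} (hs : act s x = x) (ht : act t x = x) :
    s 0 * t 1 - s 1 * t 0 = 0 := by
  by_cases h0 : toC s = 0
  · have h1 : s 0 = 0 := by simpa [toC] using congrArg re h0
    have h2 : s 1 = 0 := by simpa [toC] using congrArg im h0
    rw [h1, h2]
    ring
  have h := im_eq_zero_of_InLam (inLam_of_act hs) (inLam_of_act ht) (by ring)
    (div_ne_zero (mul_ne_zero h0 (exp_ne_zero _)) two_ne_zero)
  have hp : normSq (exp (-(lift x).1)) ≠ 0 := (normSq_pos.mpr (exp_ne_zero _)).ne'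
  apply mul_left_cancel₀ hp
  generalize exp (-(lift x).1) = e at h
  simp only [toC, div_ofNat_im, div_ofNat_re, mul_re, mul_im, add_re, add_im, ofReal_re, ofReal_im,
    I_re, I_im, mul_zero, mul_one, add_zero, zero_add, sub_self] at h
  rw [normSq_apply]
  linear_combination (-4) * h

theorem not_isCompact_leaf (x : N) : ¬ IsCompact (leaf act x) := by
  intro hc
  obtain ⟨h1, h0, hadd, -⟩ := isActionOfFlows
  obtain ⟨C, hC⟩ := exists_bound_of_isCompact h1.continuous h0 hadd hc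
  have hper : ∀ s : Fin 2 → ℝ, ∃ p : Fin 2 → ℝ, act p x = x ∧ ∀ i, |s i - p i| ≤ C := by
    intro s
    obtain ⟨s', h2, h3⟩ := hC s
    refine ⟨-s' + s, by rw [hadd, ← h3, ← hadd, neg_add_cancel, h0], fun i => ?_⟩
    have h4 := (norm_le_pi_norm s' i).trans h2
    simpa using h4
  have hC0 : 0 ≤ C := by
    obtain ⟨p, -, hp⟩ := hper 0
    exact (abs_nonneg _).trans (hp 0)
  obtain ⟨p, hp, hp'⟩ := hper ![2 * C + 1, 0]
  obtain ⟨r, hr, hr'⟩ := hper ![0, 2 * C + 1]
  have h := det_eq_zero_of_act hp hr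
  have a1 := abs_le.mp (hp' 0)
  have a2 := abs_le.mp (hp' 1)
  have a3 := abs_le.mp (hr' 0)
  have a4 := abs_le.mp (hr' 1)
  simp only [Matrix.cons_val_zero, Matrix.cons_val_one, Matrix.cons_val_fin_one] at a1 a2 a3 a4
  have b1 : (C + 1) * (C + 1) ≤ p 0 * r 1 :=
    mul_le_mul (by linarith [a1.2]) (by linarith [a4.2]) (by linarith) (by linarith [a1.2])
  have b2 : p 1 * r 0 ≤ C * C := by nlinarith [a2.1, a2.2, a3.1, a3.2]
  nlinarith

end Pool.Agent.Lib.MP_666db5_gt.Fat
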