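import Mathlib
import Pool.Agent.Lib.MP_666db5_gt.Defs
import Pool.Agent.Lib.MP_666db5_gt.Fat.Leaves

/-!
The contact action on `Γ \ G` does not fibre equivariantly over a circle.
-/

set_option autoImplicit false

open scoped Manifold ContDiff Topology
open Set Filter Complex

noncomputable section

namespace Pool.Agent.Lib.MP_666db5_gt.Fat

theorem gmul_zero (g : E6) : gmul g 0 = g := by simp [gmul]

theorem conj_mem {τ a b : ℂ} (hτ : τ ∈ Lt) (h : InLam a b) :
    InLam (exp (-τ) * a) (exp τ * b) := by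
  have h1 : (((τ, 0, 0) : E6) : G) ∈ Gam := (mem_Gam _).mpr ⟨hτ, 0, 0, by simp, by simp⟩
  have h2 : (((0, a, b) : E6) : G) ∈ Gam := (mem_Gam _).mpr ⟨Lt.zero_mem, h⟩
  have h3 : InLam (exp (-τ) * a + 0) (exp τ * b + 0) := ((mem_Gam _).mp (Gam.mul_mem h1 h2)).2
  rwa [add_zero, add_zero] at h3

/-- A function that changes by a constant under each element of `Γ` is periodic for the lattice
of translations. -/
theorem periodic_of_cocycle {g : E6 → ℝ}
    (hg : ∀ γ : E6, (γ : G) ∈ Gam → ∀ z, g (gmul γ z) = g z + (g γ - g 0)) {a b : ℂ}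
    (h : InLam a b) : g (0, a, b) = g 0 := by
  have mem : ∀ {a b : ℂ}, InLam a b → (((0, a, b) : E6) : G) ∈ Gam := fun h =>
    (mem_Gam _).mpr ⟨Lt.zero_mem, h⟩
  have conj : ∀ τ ∈ Lt, g (0, exp (-τ) * a, exp τ * b) = g (0, a, b) := by
    intro τ hτ
    have h1 : (((τ, 0, 0) : E6) : G) ∈ Gam := (mem_Gam _).mpr ⟨hτ, 0, 0, by simp, by simp⟩
    have e1 := hg _ h1 (0, a, b)
    have e2 := hg _ (mem (conj_mem hτ h)) (τ, 0, 0)
    have e3 : gmul (τ, 0, 0) (0, a, b) = gmul (0, exp (-τ) * a, exp τ * b) (τ, 0, 0) := by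
      simp [gmul]
    rw [e3, e2] at e1
    linarith
  obtain ⟨c, hc, hc4⟩ : ∃ c ∈ Lt, exp (-c) + exp c = 4 := by
    refine ⟨_, log_mem_Lt, ?_⟩
    have hpos : (0 : ℝ) < 2 + √3 := by linarith [one_lt_sqrt3]
    rw [← ofReal_neg, ← ofReal_exp, ← ofReal_exp, Real.exp_neg, Real.exp_log hpos, ← ofReal_add]
    have h4 : (2 + √3 : ℝ)⁻¹ = 2 - √3 := by
      refine inv_eq_of_mul_eq_one_right ?_
      nlinarith [sqrt3_mul]
    rw [h4]
    norm_num
  have c1 := conj c hc
  have c2 := conj (-c) (Lt.neg_mem hc)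
  rw [neg_neg] at c2
  have s1 := hg _ (mem (conj_mem hc h)) (0, exp c * a, exp (-c) * b)
  have t1 := hg _ (mem h) (0, a, b)
  have t2 := hg _ (mem h) (gmul (0, a, b) (0, a, b))
  have t3 := hg _ (mem h) (gmul (0, a, b) (gmul (0, a, b) (0, a, b)))
  have e : gmul (0, exp (-c) * a, exp c * b) (0, exp c * a, exp (-c) * b) =
      gmul (0, a, b) (gmul (0, a, b) (gmul (0, a, b) (0, a, b))) := by
    simp only [gmul, neg_zero, exp_zero, one_mul, add_zero, Prod.mk.injEq, true_and]
    constructor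
    · linear_combination a * hc4
    · linear_combination b * hc4
  rw [e] at s1
  linarith

theorem exists_bounded_fibre (x y : ℂ) :
    ∃ a b : ℂ, InLam a b ∧ ‖gmul (0, a, b) (0, x, y)‖ ≤ 9 := by
  obtain ⟨α, ha1, ha2⟩ := exists_approx x.re y.re
  obtain ⟨β, hb1, hb2⟩ := exists_approx x.im (y.im / √2)
  refine ⟨_, _, ⟨α, β, rfl, rfl⟩, ?_⟩
  have h2 := one_lt_sqrt2
  have h2' := sqrt2_lt_two
  simp only [gmul, neg_zero, exp_zero, one_mul, add_zero]
  rw [Prod.norm_def, Prod.norm_def, max_le_iff, max_le_iff]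
  refine ⟨by simp, ?_, ?_⟩
  · refine (norm_le_abs_re_add_abs_im _).trans ?_
    have e1 : (x + (phi α + phi β * I)).re = x.re + phi α := by simp
    have e2 : (x + (phi α + phi β * I)).im = x.im + phi β := by simp
    rw [e1, e2]
    linarith
  · refine (norm_le_abs_re_add_abs_im _).trans ?_
    have e1 : (y + (psi α + √2 * psi β * I)).re = y.re + psi α := by simp
    have e2 : (y + (psi α + √2 * psi β * I)).im = √2 * (y.im / √2 + psi β) := by
      have : (y + (psi α + √2 * psi β * I)).im = y.im + √2 * psi β := by simp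
      rw [this]
      field_simp
    rw [e1, e2, abs_mul, abs_of_pos (by linarith : (0 : ℝ) < √2)]
    nlinarith [abs_nonneg (y.im / √2 + psi β)]

/-- A continuous map to the circle that turns the action into translations is invariant. -/
theorem no_circle_factor (f : N → AddCircle (1 : ℝ)) (l : (Fin 2 → ℝ) →ₗ[ℝ] ℝ) (hf : Continuous f)
    (h : ∀ s x, f (act s x) = f x + (l s : ℝ)) : l = 0 := by
  have cov := AddCircle.isCoveringMap_coe (1 : ℝ)
  obtain ⟨r, hr⟩ : ∃ r : ℝ, (r : AddCircle (1 : ℝ)) = f (proj 0) :=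
    QuotientAddGroup.mk_surjective _
  obtain ⟨g, ⟨-, hg⟩, -⟩ := cov.existsUnique_continuousMap_lifts
    (⟨fun z => f (proj z), hf.comp continuous_proj⟩ : C(E6, AddCircle (1 : ℝ))) 0 r hr
  have hg' : ∀ z, ((g z : ℝ) : AddCircle (1 : ℝ)) = f (proj z) := fun z => congrFun hg z
  have h1 : ∀ γ : E6, (γ : G) ∈ Gam → ∀ z, g (gmul γ z) = g z + (g γ - g 0) := by
    intro γ hγ z
    have hz : ∀ z, ((g (gmul γ z) - g z : ℝ) : AddCircle (1 : ℝ)) = 0 := fun z => by
      rw [AddCircle.coe_sub, hg', hg', proj_gmul hγ, sub_self]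
    have := cov.const_of_comp (g := fun z => g (gmul γ z) - g z)
      ((g.continuous.comp (contDiff_gmul γ).continuous).sub g.continuous)
      (fun a a' => by rw [hz, hz]) z 0
    simp only [gmul_zero] at this
    linarith
  have h2 : ∀ s, g (flow (toC s) 0) = g 0 + l s := by
    intro s
    have hz : ∀ s, ((g (flow (toC s) 0) - l s : ℝ) : AddCircle (1 : ℝ)) = f (proj 0) := fun s => by
      rw [AddCircle.coe_sub, hg', ← act_proj, h, add_sub_cancel_right]
    have hc : Continuous fun s => flow (toC s) 0 := by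
      unfold flow V toC
      fun_prop
    have := cov.const_of_comp (g := fun s => g (flow (toC s) 0) - l s)
      ((g.continuous.comp hc).sub l.continuous_of_finiteDimensional)
      (fun a a' => by rw [hz, hz]) s 0
    have h0 : flow (toC 0) 0 = 0 := by simp [flow, toC, V]
    simp only [h0, map_zero] at this
    linarith
  obtain ⟨C, hC⟩ := (isCompact_closedBall (0 : E6) 9).exists_bound_of_continuousOn
    g.continuous.continuousOn
  have h3 : ∀ s, l s ≤ C - g 0 := by
    intro s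
    have e : flow (toC s) 0 = (0, toC s / 2, toC s / 2) := by simp [flow, V]
    obtain ⟨a, b, hab, hn⟩ := exists_bounded_fibre (toC s / 2) (toC s / 2)
    have h4 := hC _ (mem_closedBall_zero_iff.mpr hn)
    rw [h1 _ ((mem_Gam _).mpr ⟨Lt.zero_mem, hab⟩), periodic_of_cocycle h1 hab, ← e, h2] at h4
    linarith [le_abs_self (g 0 + l s + (g 0 - g 0)), Real.norm_eq_abs (g 0 + l s + (g 0 - g 0))]
  refine LinearMap.ext fun s => ?_
  by_contra hs
  have h5 := h3 (((C - g 0 + 1) / l s) • s)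
  rw [map_smul, smul_eq_mul, div_mul_cancel₀ _ hs] at h5
  linarith

end Pool.Agent.Lib.MP_666db5_gt.Fat
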